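import Pool.Agent.Q81.IpADDB
import Pool.Agent.Q81.IpPrufer

/-!
# MP_6e749b_al, Q1: over an ADDB-domain, `Int_K(A)` integrally closed implies Pruefer
-/

namespace Pool.Agent.Results.MP_6e749b_al.IntegrallyClosedPrufer

open Polynomial TensorProduct

/-- `D` is an ADDB-domain with base ring `D₀` (which is `ℤ` or `𝔽_p[t]`, embedded in `D`): every
localization at a maximal ideal is a discrete valuation ring, the residue fields are finite, and
for every prime `q` of `D₀` there is one bound `N` with `v_P(q) ≤ N` (that is, `q ∉ P ^ (N + 1)`)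
and `[D / P : D₀ / q] ≤ N` for all non-zero primes `P` of `D` over `q`. -/
structure IsADDB (D₀ D : Type*) [CommRing D₀] [CommRing D] [IsDomain D] [Algebra D₀ D] :
    Prop where
  base : Nonempty (D₀ ≃+* ℤ) ∨ ∃ p : ℕ, p.Prime ∧ Nonempty (D₀ ≃+* (ZMod p)[X])
  injective : Function.Injective (algebraMap D₀ D)
  almostDedekind : ∀ (M : Ideal D) [M.IsMaximal],
    IsDiscreteValuationRing (Localization.AtPrime M)
  finite : ∀ (M : Ideal D) [M.IsMaximal], Finite (D ⧸ M)
  bounded : ∀ q : D₀, Prime q → ∃ N : ℕ, ∀ (P : Ideal D) [P.IsPrime], P ≠ ⊥ →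
    P.under D₀ = Ideal.span {q} →
      algebraMap D₀ D q ∉ P ^ (N + 1) ∧ Module.finrank (D₀ ⧸ P.under D₀) (D ⧸ P) ≤ N

/-- `Int_K(A)`: the polynomials over `K = Frac D` with `f(a) ∈ A` for all `a ∈ A`; the values are
computed in `B = K ⊗ A`, where `a ∈ A` is the element `1 ⊗ a`. -/
def IntK (D A : Type*) [CommRing D] [IsDomain D] [Ring A] [Algebra D A] :
    Subring (FractionRing D)[X] where
  carrier := {f | ∀ a : A, ∃ b : A,
    aeval ((1 : FractionRing D) ⊗ₜ[D] a) f = (1 : FractionRing D) ⊗ₜ[D] b}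
  mul_mem' := by
    intro f g hf hg a
    obtain ⟨b, hb⟩ := hf a
    obtain ⟨c, hc⟩ := hg a
    exact ⟨b * c, by rw [map_mul, hb, hc, Algebra.TensorProduct.tmul_mul_tmul, one_mul]⟩
  one_mem' := fun a => ⟨1, by rw [map_one, Algebra.TensorProduct.one_def]⟩
  add_mem' := by
    intro f g hf hg a
    obtain ⟨b, hb⟩ := hf a
    obtain ⟨c, hc⟩ := hg a
    exact ⟨b + c, by rw [map_add, hb, hc, TensorProduct.tmul_add]⟩
  zero_mem' := fun a => ⟨0, by rw [map_zero, TensorProduct.tmul_zero]⟩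
  neg_mem' := by
    intro f hf a
    obtain ⟨b, hb⟩ := hf a
    exact ⟨-b, by rw [map_neg, hb, TensorProduct.tmul_neg]⟩

/-- Pruefer domains: all localizations at prime ideals are valuation rings. -/
def IsPruferDomain (R : Type*) [CommRing R] [IsDomain R] : Prop :=
  ∀ (P : Ideal R) [P.IsPrime], ValuationRing (Localization.AtPrime P)

theorem result (D₀ D A : Type*) [CommRing D₀] [CommRing D] [IsDomain D] [Algebra D₀ D]
    (hD : IsADDB D₀ D) [Ring A] [Algebra D A] [Module.Finite D A] :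
    (IsIntegrallyClosed (IntK D A) → IsPruferDomain (IntK D A)) ∧
    ∀ x : FractionRing (FractionRing D)[X], IsIntegral (IntK D A) x ↔
      ∃ f : (FractionRing D)[X], algebraMap (FractionRing D)[X] _ f = x ∧
        ∀ a : A, IsIntegral D (aeval ((1 : FractionRing D) ⊗ₜ[D] a) f) := by
  have hD' : Q81.IP.IsADDB D₀ D :=
    ⟨hD.base, hD.injective, hD.almostDedekind, hD.finite, hD.bounded⟩
  let A' : Subalgebra D (FractionRing D ⊗[D] A) :=
    (Algebra.TensorProduct.includeRight : A →ₐ[D] FractionRing D ⊗[D] A).range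
  have hfin : Module.Finite D A' := Module.Finite.of_surjective
    (Algebra.TensorProduct.includeRight : A →ₐ[D] FractionRing D ⊗[D] A).rangeRestrict.toLinearMap
    (AlgHom.rangeRestrict_surjective _)
  have hR : ∀ f : (FractionRing D)[X], f ∈ IntK D A ↔ ∀ a ∈ A', aeval a f ∈ A' := by
    intro f
    constructor
    · rintro hf _ ⟨a, rfl⟩
      obtain ⟨b, hb⟩ := hf a
      exact ⟨b, hb.symm⟩
    · intro hf a
      obtain ⟨b, hb⟩ := hf _ ⟨a, rfl⟩
      exact ⟨b, hb.symm⟩
  refine ⟨fun hic P _ => Q81.IP.valuationRing hD'.good hD'.integrallyClosed hR hic P, fun x => ?_⟩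
  rw [Q81.IP.integral_iff hD'.good hD'.integrallyClosed hR x]
  constructor
  · rintro ⟨f, hf, h⟩
    exact ⟨f, hf, fun a => h _ ⟨a, rfl⟩⟩
  · rintro ⟨f, hf, h⟩
    refine ⟨f, hf, ?_⟩
    rintro _ ⟨a, rfl⟩
    exact h a

end Pool.Agent.Results.MP_6e749b_al.IntegrallyClosedPrufer
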